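import Mathlib

/-!
# MP_97ec3f_ag, Q1: over a finite field, some codimension 2 subspace arrangements are not
residue ideals

Everything is written in coordinates: `V = K^n`, `S = K[x_1, …, x_n] = MvPolynomial (Fin n) K`.

* A hyperplane arrangement is given by a finite set `A` of coefficient vectors of defining linear
  forms, one for every hyperplane: the vectors are non-zero and pairwise non-proportional.
* `IsLog A f` says that `ω = (1/Q(A)) ∑ fᵢ dxᵢ` is a logarithmic 1-form:
  `Q(A) ω ∧ dβ ∈ β Ω²` for all `β ∈ A`.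
* For `α ∈ A` and `H = {α = 0}`, `IsRestriction A α T` says that `T` contains exactly one of the
  forms of `A` for every hyperplane `H ∩ H'` (`H' ∈ A`, `H' ≠ H`) of the restriction `A^H`, so
  `∏_{γ ∈ T} γ` restricts to a defining polynomial `Q(A^H)` of `A^H`.
* On `H` the numerator `∑ fᵢ dxᵢ` of a logarithmic form is `g dα`, and `g` is divisible by
  `Q(A^H)` in `S/(α)`; the residue of `ω` along `H` is `g / (Q(A)/α)|_H`.  The residue ideal
  consists of the `r = g / Q(A^H)`, that is, of the residues multiplied by the common denominator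
  `(Q(A)/α)|_H / Q(A^H)`, which is how the residue map gets the target `S/(α)`.
  `residueIdeal A α T` is the preimage in `S` of this ideal of `S/(α)`.
-/

namespace Pool.Agent.Results.MP_97ec3f_ag.FiniteFields

open MvPolynomial

variable {K : Type*} [Field K]

/-- The linear form `∑ aᵢ xᵢ` as a polynomial. -/
noncomputable def lin {n : ℕ} (a : Fin n → K) : MvPolynomial (Fin n) K := ∑ i, C (a i) * X i

/-- The linear form `v ↦ ∑ aᵢ vᵢ` as a linear map. -/
def form {n : ℕ} (a : Fin n → K) : (Fin n → K) →ₗ[K] K := ∑ i, a i • LinearMap.proj i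

/-- `A` is a set of defining linear forms of a hyperplane arrangement in `K^n`, one form for each
hyperplane. -/
structure IsArrangement {n : ℕ} (A : Finset (Fin n → K)) : Prop where
  ne_zero : ∀ a ∈ A, a ≠ 0
  not_prop : ∀ a ∈ A, ∀ b ∈ A, a ≠ b → ∀ c : K, b ≠ c • a

/-- The 1-form `(1/Q(A)) ∑ fᵢ dxᵢ` is logarithmic along every hyperplane of `A`. -/
def IsLog {n : ℕ} (A : Finset (Fin n → K)) (f : Fin n → MvPolynomial (Fin n) K) : Prop :=
  ∀ β ∈ A, ∀ i j, f i * C (β j) - f j * C (β i) ∈ Ideal.span {lin β}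

/-- `T` contains exactly one of the forms of `A` for every hyperplane of the restriction of `A`
to the hyperplane `α = 0`. -/
structure IsRestriction {n : ℕ} (A : Finset (Fin n → K)) (α : Fin n → K)
    (T : Finset (Fin n → K)) : Prop where
  mem : ∀ γ ∈ T, γ ∈ A ∧ γ ≠ α
  cover : ∀ β ∈ A, β ≠ α → ∃ γ ∈ T, ∃ c d : K, β = c • γ + d • α
  inj : ∀ γ ∈ T, ∀ γ' ∈ T, γ ≠ γ' → ∀ c d : K, γ' ≠ c • γ + d • α

/-- The preimage in `S` of the residue ideal `J^H_A ⊆ S/(α)`, where `H = {α = 0}` and `T` is a
transversal for the restriction `A^H` (see the header of the file). -/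
noncomputable def residueIdeal {n : ℕ} (A : Finset (Fin n → K)) (α : Fin n → K)
    (T : Finset (Fin n → K)) : Ideal (MvPolynomial (Fin n) K) where
  carrier := {r | ∃ f : Fin n → MvPolynomial (Fin n) K, IsLog A f ∧
    ∀ i, f i - r * (∏ γ ∈ T, lin γ) * C (α i) ∈ Ideal.span {lin α}}
  add_mem' := by
    rintro r s ⟨f, hf, hf'⟩ ⟨g, hg, hg'⟩
    refine ⟨fun i => f i + g i, fun β hβ i j => ?_, fun i => ?_⟩
    · have h := Ideal.add_mem _ (hf β hβ i j) (hg β hβ i j)
      have e : (f i + g i) * C (β j) - (f j + g j) * C (β i)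
          = (f i * C (β j) - f j * C (β i)) + (g i * C (β j) - g j * C (β i)) := by ring
      rw [e]; exact h
    · have h := Ideal.add_mem _ (hf' i) (hg' i)
      have e : f i + g i - (r + s) * (∏ γ ∈ T, lin γ) * C (α i)
          = (f i - r * (∏ γ ∈ T, lin γ) * C (α i)) + (g i - s * (∏ γ ∈ T, lin γ) * C (α i)) := by
        ring
      rw [e]; exact h
  zero_mem' := by
    refine ⟨fun _ => 0, fun β _ i j => ?_, fun i => ?_⟩
    · have e : (0 : MvPolynomial (Fin n) K) * C (β j) - 0 * C (β i) = 0 := by ring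
      rw [e]; exact Ideal.zero_mem _
    · have e : (0 : MvPolynomial (Fin n) K) - 0 * (∏ γ ∈ T, lin γ) * C (α i) = 0 := by ring
      rw [e]; exact Ideal.zero_mem _
  smul_mem' := by
    rintro c r ⟨f, hf, hf'⟩
    refine ⟨fun i => c * f i, fun β hβ i j => ?_, fun i => ?_⟩
    · have h := Ideal.mul_mem_left _ c (hf β hβ i j)
      have e : c * f i * C (β j) - c * f j * C (β i)
          = c * (f i * C (β j) - f j * C (β i)) := by ring
      rw [e]; exact h
    · have h := Ideal.mul_mem_left _ c (hf' i)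
      have e : c * f i - c • r * (∏ γ ∈ T, lin γ) * C (α i)
          = c * (f i - r * (∏ γ ∈ T, lin γ) * C (α i)) := by
        rw [smul_eq_mul]; ring
      rw [e]; exact h

/-- The pull-back of polynomial functions along the linear map `K^m → K^n` that sends the `j`-th
standard basis vector to `ψ j`. -/
noncomputable def pull {m n : ℕ} (ψ : Fin m → Fin n → K) :
    MvPolynomial (Fin n) K →ₐ[K] MvPolynomial (Fin m) K :=
  aeval (fun i => ∑ j, C (ψ j i) * X j)

/-- The ideal of a linear subspace: it is generated by the linear forms vanishing on it. -/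
noncomputable def idealOf {m : ℕ} (X : Submodule K (Fin m → K)) :
    Ideal (MvPolynomial (Fin m) K) :=
  Ideal.span {p | ∃ a : Fin m → K, (∀ v ∈ X, form a v = 0) ∧ p = lin a}

/-- The defining ideal of a subspace arrangement. -/
noncomputable def arrIdeal {m : ℕ} (B : Finset (Submodule K (Fin m → K))) :
    Ideal (MvPolynomial (Fin m) K) :=
  ⨅ X ∈ B, idealOf X

/-- `J^H_A` is the defining ideal of the subspace arrangement `B` in `K^m` for some hyperplane
arrangement `A` in some `K^n` and some `H = {α = 0} ∈ A`: there is a linear isomorphism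
`φ : K^m ≃ H` such that the pull-back of polynomial functions along `φ` maps the residue ideal
onto the ideal of `B`. -/
def IsResidueArrangement {m : ℕ} (B : Finset (Submodule K (Fin m → K))) : Prop :=
  ∃ (n : ℕ) (A : Finset (Fin n → K)) (α : Fin n → K) (T : Finset (Fin n → K))
    (φ : (Fin m → K) ≃ₗ[K] LinearMap.ker (form α)),
    IsArrangement A ∧ α ∈ A ∧ IsRestriction A α T ∧
    Ideal.map (pull (fun j => (φ (Pi.single j 1) : Fin n → K))) (residueIdeal A α T) = arrIdeal B

/-! ## Counting -/

theorem form_apply {n : ℕ} (a v : Fin n → K) : form a v = ∑ i, a i * v i := by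
  simp [form]

theorem pull_lin {m n : ℕ} (ψ : Fin m → Fin n → K) (a : Fin n → K) :
    pull ψ (lin a) = lin (fun j => form a (ψ j)) := by
  simp only [pull, lin, map_sum, map_mul, aeval_X, form_apply, Finset.mul_sum, Finset.sum_mul]
  rw [Finset.sum_comm]
  refine Finset.sum_congr rfl fun j _ => Finset.sum_congr rfl fun i _ => ?_
  rw [aeval_C]
  simp only [algebraMap_eq]
  ring

theorem coeff_lin {n : ℕ} (a : Fin n → K) (j : Fin n) :
    coeff (Finsupp.single j 1) (lin a) = a j := by
  classical
  simp only [lin, coeff_sum, coeff_C_mul, coeff_X]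
  rw [Finset.sum_eq_single j]
  · simp
  · intro i _ hij
    rw [if_neg]
    · simp
    · intro h
      exact hij ((Finsupp.single_left_inj (by norm_num)).1 h)
  · intro h; exact absurd (Finset.mem_univ j) h

theorem lin_eq_zero {n : ℕ} {a : Fin n → K} (h : lin a = 0) : a = 0 := by
  funext j
  rw [← coeff_lin a j, h]
  simp

/-- A linear form that vanishes modulo the ideal of `X` vanishes on `X`; moreover the ideal of `X`
is contained in the kernel of a homomorphism to a domain that detects this. -/
theorem exists_hom {m : ℕ} (X : Submodule K (Fin m → K)) :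
    ∃ (d : ℕ) (ρ : MvPolynomial (Fin m) K →ₐ[K] MvPolynomial (Fin d) K),
      (∀ p ∈ idealOf X, ρ p = 0) ∧
      ∀ a : Fin m → K, ρ (lin a) = 0 → ∀ v ∈ X, form a v = 0 := by
  classical
  let b := Module.finBasis K X
  refine ⟨Module.finrank K X, pull (fun j => (b j : Fin m → K)), ?_, ?_⟩
  · intro p hp
    have hle : idealOf X ≤ RingHom.ker (pull (fun j => (b j : Fin m → K))).toRingHom := by
      rw [idealOf, Ideal.span_le]
      rintro _ ⟨a, ha, rfl⟩
      change pull (fun j => (b j : Fin m → K)) (lin a) = 0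
      rw [pull_lin]
      have : (fun j => form a (b j : Fin m → K)) = 0 := by
        funext j
        exact ha _ (b j).2
      rw [this]
      simp [lin]
    exact hle hp
  · intro a ha v hv
    rw [pull_lin] at ha
    have h0 := lin_eq_zero ha
    have hb : (form a).comp X.subtype = 0 := by
      apply b.ext
      intro j
      have := congrFun h0 j
      simpa using this
    have := LinearMap.congr_fun hb ⟨v, hv⟩
    simpa using this

/-- If `X` is not contained in `Y`, some linear form vanishes on `Y` and not on `X`. -/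
theorem exists_sep {m : ℕ} {X Y : Submodule K (Fin m → K)} (h : ¬ X ≤ Y) :
    ∃ a : Fin m → K, (∀ v ∈ Y, form a v = 0) ∧ ∃ v ∈ X, form a v ≠ 0 := by
  classical
  obtain ⟨v, hvX, hvY⟩ := SetLike.not_le_iff_exists.1 h
  obtain ⟨g, hg, hgY⟩ := Submodule.exists_le_ker_of_notMem hvY
  refine ⟨fun i => g (Pi.single i 1), ?_, v, hvX, ?_⟩
  all_goals
    have key : ∀ w : Fin m → K, form (fun i => g (Pi.single i 1)) w = g w := by
      intro w
      rw [form_apply, LinearMap.pi_apply_eq_sum_univ g w]
      refine Finset.sum_congr rfl fun i _ => ?_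
      rw [smul_eq_mul, mul_comm]
      congr 2
      funext j
      rw [Pi.single_apply]
      by_cases hij : i = j
      · rw [if_pos hij, if_pos hij.symm]
      · rw [if_neg hij, if_neg (Ne.symm hij)]
  · intro w hw
    rw [key]
    exact hgY hw
  · rw [key]; exact hg

theorem arrIdeal_mem {m : ℕ} {B B' : Finset (Submodule K (Fin m → K))}
    (hB : ∀ X ∈ B, Module.finrank K X + 2 = m) (hB' : ∀ X ∈ B', Module.finrank K X + 2 = m)
    (h : arrIdeal B = arrIdeal B') : B ⊆ B' := by
  classical
  intro X hX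
  by_contra hXB
  have hsep : ∀ Y ∈ B', ∃ a : Fin m → K, (∀ v ∈ Y, form a v = 0) ∧ ∃ v ∈ X, form a v ≠ 0 := by
    intro Y hY
    apply exists_sep
    intro hle
    have : X = Y := Submodule.eq_of_le_of_finrank_eq hle (by
      have := hB X hX; have := hB' Y hY; omega)
    exact hXB (this ▸ hY)
  choose! a ha hv using hsep
  obtain ⟨d, ρ, hρ, hρ'⟩ := exists_hom X
  have hmem : (∏ Y ∈ B', lin (a Y)) ∈ arrIdeal B' := by
    rw [arrIdeal]
    simp only [Ideal.mem_iInf]
    intro Y hY
    rw [← Finset.mul_prod_erase _ _ hY]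
    apply Ideal.mul_mem_right
    exact Ideal.subset_span ⟨a Y, ha Y hY, rfl⟩
  rw [← h] at hmem
  have hmemX : (∏ Y ∈ B', lin (a Y)) ∈ idealOf X := by
    rw [arrIdeal] at hmem
    simp only [Ideal.mem_iInf] at hmem
    exact hmem X hX
  have h0 := hρ _ hmemX
  rw [map_prod, Finset.prod_eq_zero_iff] at h0
  obtain ⟨Y, hY, hY0⟩ := h0
  obtain ⟨v, hvX, hv0⟩ := hv Y hY
  exact hv0 (hρ' _ hY0 v hvX)

theorem arrIdeal_inj {m : ℕ} {B B' : Finset (Submodule K (Fin m → K))}
    (hB : ∀ X ∈ B, Module.finrank K X + 2 = m) (hB' : ∀ X ∈ B', Module.finrank K X + 2 = m)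
    (h : arrIdeal B = arrIdeal B') : B = B' :=
  Finset.Subset.antisymm (arrIdeal_mem hB hB' h) (arrIdeal_mem hB' hB h.symm)

/-- There are many subspaces of codimension 2. -/
theorem exists_family (k : ℕ) :
    ∃ X : ((Fin k → K) →ₗ[K] (Fin 2 → K)) → Submodule K (Fin (k + 2) → K),
      Function.Injective X ∧ ∀ f, Module.finrank K (X f) + 2 = k + 2 := by
  classical
  have hfr : Module.finrank K ((Fin k → K) × (Fin 2 → K)) = Module.finrank K (Fin (k + 2) → K) := by
    simp
  let e := LinearEquiv.ofFinrankEq ((Fin k → K) × (Fin 2 → K)) (Fin (k + 2) → K) hfr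
  refine ⟨fun f => (f.graph).map (e : ((Fin k → K) × (Fin 2 → K)) →ₗ[K] (Fin (k + 2) → K)), ?_, ?_⟩
  · intro f g hfg
    have h1 : f.graph = g.graph :=
      Submodule.map_injective_of_injective
        (f := (e : ((Fin k → K) × (Fin 2 → K)) →ₗ[K] (Fin (k + 2) → K))) e.injective hfg
    apply LinearMap.ext
    intro x
    have hx : (x, f x) ∈ g.graph := by
      rw [← h1]; simp [LinearMap.mem_graph_iff]
    simpa [LinearMap.mem_graph_iff] using hx
  · intro f
    have h1 : Module.finrank K
        ((f.graph).map (e : ((Fin k → K) × (Fin 2 → K)) →ₗ[K] (Fin (k + 2) → K)))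
        = Module.finrank K f.graph := LinearEquiv.finrank_map_eq e _
    have h2 : Module.finrank K f.graph = k := by
      rw [LinearMap.graph_eq_range_prod, LinearMap.finrank_range_of_inj]
      · simp
      · intro x y hxy
        exact (Prod.ext_iff.1 hxy).1
    change Module.finrank K
      ((f.graph).map (e : ((Fin k → K) × (Fin 2 → K)) →ₗ[K] (Fin (k + 2) → K))) + 2 = k + 2
    rw [h1, h2]

theorem sq_le (m : ℕ) (hm : 4 ≤ m) : m * m ≤ 2 ^ m := by
  induction m, hm using Nat.le_induction with
  | base => norm_num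
  | succ n hn ih => rw [pow_succ]; nlinarith

theorem count_aux (q k : ℕ) (hq : 2 ≤ q) (hk : 5 ≤ k) :
    2 ^ (q ^ (k + 3)) * (2 ^ (q ^ (k + 3)) * (q ^ (k + 3) * (q ^ (k + 3)) ^ (k + 2)))
      < 2 ^ (q ^ (k * 2)) := by
  have h1 : q ^ (k + 3) * (q ^ (k + 3)) ^ (k + 2) = q ^ ((k + 3) * (k + 3)) := by
    rw [← pow_mul, ← pow_add]; congr 1; ring
  have h2 : q ^ ((k + 3) * (k + 3)) < 2 ^ (2 * q ^ (k + 3)) := by
    calc q ^ ((k + 3) * (k + 3)) < (2 ^ q) ^ ((k + 3) * (k + 3)) :=
          Nat.pow_lt_pow_left Nat.lt_two_pow_self (by positivity)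
      _ = 2 ^ (q * ((k + 3) * (k + 3))) := by rw [← pow_mul]
      _ ≤ 2 ^ (2 * q ^ (k + 3)) := by
          apply Nat.pow_le_pow_right (by norm_num)
          have h3 := sq_le (k + 3) (by omega)
          have h4 : 2 ^ (k + 3) ≤ 2 * q ^ (k + 2) := by
            rw [pow_succ]
            have := Nat.pow_le_pow_left hq (k + 2)
            omega
          calc q * ((k + 3) * (k + 3)) ≤ q * (2 * q ^ (k + 2)) :=
                Nat.mul_le_mul_left _ (h3.trans h4)
            _ = 2 * q ^ (k + 3) := by ring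
  have h5 : 4 * q ^ (k + 3) ≤ q ^ (k * 2) := by
    calc 4 * q ^ (k + 3) ≤ q ^ 2 * q ^ (k + 3) := by
          apply Nat.mul_le_mul_right
          nlinarith
      _ = q ^ (2 + (k + 3)) := by rw [← pow_add]
      _ ≤ q ^ (k * 2) := Nat.pow_le_pow_right (by omega) (by omega)
  rw [h1]
  calc 2 ^ (q ^ (k + 3)) * (2 ^ (q ^ (k + 3)) * q ^ ((k + 3) * (k + 3)))
      < 2 ^ (q ^ (k + 3)) * (2 ^ (q ^ (k + 3)) * 2 ^ (2 * q ^ (k + 3))) := by
        apply Nat.mul_lt_mul_of_pos_left _ (by positivity)
        exact Nat.mul_lt_mul_of_pos_left h2 (by positivity)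
    _ = 2 ^ (4 * q ^ (k + 3)) := by
        rw [← pow_add, ← pow_add]; congr 1; ring
    _ ≤ 2 ^ (q ^ (k * 2)) := Nat.pow_le_pow_right (by norm_num) h5

theorem dim_eq {m n : ℕ} {α : Fin n → K} (hα : α ≠ 0)
    (φ : (Fin m → K) ≃ₗ[K] LinearMap.ker (form α)) : n = m + 1 := by
  classical
  have h1 := LinearMap.finrank_range_add_finrank_ker (form α)
  have h2 : Module.finrank K (LinearMap.ker (form α)) = m := by
    rw [← φ.finrank_eq]; simp
  have h3 : LinearMap.range (form α) = ⊤ := by
    rw [LinearMap.range_eq_top]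
    obtain ⟨i, hi⟩ := Function.ne_iff.1 hα
    intro y
    refine ⟨Pi.single i (y / α i), ?_⟩
    rw [form_apply, Finset.sum_eq_single i]
    · rw [Pi.single_eq_same]
      field_simp [show α i ≠ 0 from hi]
    · intro j _ hj
      rw [Pi.single_eq_of_ne hj, mul_zero]
    · intro h; exact absurd (Finset.mem_univ i) h
  rw [h2, h3, finrank_top, Module.finrank_self] at h1
  simp at h1
  omega

/-- The counting argument.  It does not use what the residue ideal is: for *every* rule `J` that
attaches an ideal of `S` to an arrangement `A`, a form `α ∈ A` and a set `T` of forms, some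
codimension 2 subspace arrangement `B` in `K^m` has an ideal that does not come from `J`. -/
theorem general (K : Type*) [Field K] [Finite K] (m : ℕ) (hm : 7 ≤ m)
    (J : ∀ n : ℕ, Finset (Fin n → K) → (Fin n → K) → Finset (Fin n → K) →
      Ideal (MvPolynomial (Fin n) K)) :
    ∃ B : Finset (Submodule K (Fin m → K)), (∀ X ∈ B, Module.finrank K X + 2 = m) ∧
      ∀ (n : ℕ) (A : Finset (Fin n → K)) (α : Fin n → K) (T : Finset (Fin n → K))
        (φ : (Fin m → K) ≃ₗ[K] LinearMap.ker (form α)), α ≠ 0 →
        Ideal.map (pull (fun j => (φ (Pi.single j 1) : Fin n → K))) (J n A α T) ≠ arrIdeal B := by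
  classical
  obtain ⟨k, rfl⟩ : ∃ k, m = k + 2 := ⟨m - 2, by omega⟩
  have hk : 5 ≤ k := by omega
  have := Fintype.ofFinite K
  obtain ⟨X, hXi, hX⟩ := exists_family (K := K) k
  by_contra hcon
  push Not at hcon
  have hcodim : ∀ s : Finset ((Fin k → K) →ₗ[K] (Fin 2 → K)),
      ∀ Y ∈ s.image X, Module.finrank K Y + 2 = k + 2 := by
    intro s Y hY
    obtain ⟨f, _, rfl⟩ := Finset.mem_image.1 hY
    exact hX f
  have hex : ∀ s : Finset ((Fin k → K) →ₗ[K] (Fin 2 → K)),
      ∃ c : Finset (Fin (k + 3) → K) × Finset (Fin (k + 3) → K) × (Fin (k + 3) → K) ×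
        (Fin (k + 2) → Fin (k + 3) → K),
        Ideal.map (pull c.2.2.2) (J (k + 3) c.1 c.2.2.1 c.2.1) = arrIdeal (s.image X) := by
    intro s
    obtain ⟨n, A, α, T, φ, hα, hmap⟩ := hcon (s.image X) (hcodim s)
    obtain rfl := dim_eq hα φ
    exact ⟨(A, T, α, fun j => (φ (Pi.single j 1) : Fin (k + 3) → K)), hmap⟩
  choose c hc using hex
  have hinj : Function.Injective c := by
    intro s t hst
    have h1 : arrIdeal (s.image X) = arrIdeal (t.image X) := by
      rw [← hc s, ← hc t, hst]
    have h2 := arrIdeal_inj (hcodim s) (hcodim t) h1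
    exact Finset.image_injective hXi h2
  have hfin : Fintype ((Fin k → K) →ₗ[K] (Fin 2 → K)) :=
    @Fintype.ofFinite _ (Finite.of_injective _ hXi)
  have hcard := Fintype.card_le_of_injective c hinj
  have hhom : Fintype.card ((Fin k → K) →ₗ[K] (Fin 2 → K)) = Fintype.card K ^ (k * 2) := by
    rw [Module.card_eq_pow_finrank (K := K)]
    congr 1
    rw [Module.finrank_linearMap]
    simp
  rw [Fintype.card_finset, hhom] at hcard
  simp only [Fintype.card_prod, Fintype.card_finset, Fintype.card_pi, Finset.prod_const,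
    Finset.card_univ, Fintype.card_fin] at hcard
  have hq : 2 ≤ Fintype.card K := Fintype.one_lt_card
  exact absurd hcard (not_le.2 (count_aux _ k hq hk))

/-- **Q1 has a negative answer over every finite field.**  For every finite field `K` and every
`m ≥ 7` there is a codimension 2 subspace arrangement `B` in `K^m` whose defining ideal is not
`J^H_A` for any hyperplane arrangement `A` over `K` and any `H ∈ A`. -/
theorem result (K : Type*) [Field K] [Finite K] (m : ℕ) (hm : 7 ≤ m) :
    ∃ B : Finset (Submodule K (Fin m → K)), (∀ X ∈ B, Module.finrank K X + 2 = m) ∧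
      ¬ IsResidueArrangement B := by
  obtain ⟨B, hB, h⟩ := general K m hm (fun _ A α T => residueIdeal A α T)
  refine ⟨B, hB, ?_⟩
  rintro ⟨n, A, α, T, φ, hA, hα, -, hmap⟩
  exact h n A α T φ (hA.ne_zero α hα) hmap

end Pool.Agent.Results.MP_97ec3f_ag.FiniteFields
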